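import Pool.Agent.Q57.LS.Final

/-!
# The LMO invariant separates connected sums of Seifert fibred homology spheres

The `sl₂`-reduction of the LMO invariant of an integral homology sphere is its Ohtsuki series (Ohtsuki).
For the Seifert fibred homology sphere `Σ(p_1, …, p_n)` the Ohtsuki series is the Gaussian transform of
`∏ sinh(y/p_i) / sinh(y) ^ (n-2)`, up to elementary factors (Lawrence and Rozansky). We show that the
Ohtsuki series of the manifolds `±Σ(p_1, …, p_n)` are multiplicatively independent. So the Ohtsuki
series, hence the LMO invariant, separates all connected sums of Seifert fibred integral homology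
spheres, with arbitrary orientations of the summands; and for the summands taken from a finite set
finitely many coefficients suffice.
-/

set_option autoImplicit false

namespace Pool.Agent.Results.MP_27a3bb_gt.ConnectedSums

open Q57.LS PowerSeries

/-- Data of LMO type: `M` are the homeomorphism classes of integral homology spheres under connected
sum, `bar` is the reversal of the orientation, `Z` the LMO invariant, `W` the reduction to the
Ohtsuki series, `Sig t` the Seifert fibred homology sphere with the multiplicities `t`. -/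
structure LMOData where
  M : Type
  A : Type
  [monM : CommMonoid M]
  [monA : CommMonoid A]
  bar : M → M
  Z : M →* A
  W : A →* PowerSeries ℂ
  Sig : Fib → M
  c : Fib → ℂ
  W_bar : ∀ t, W (Z (bar (Sig t))) = rescale (-1 : ℂ) (W (Z (Sig t)))
  formula : ∀ t, (exp ℂ - 1) * W (Z (Sig t)) = 2 * rescale (c t) (exp ℂ) * G t

attribute [instance] LMOData.monM LMOData.monA

/-- the summand `Sig t` (sign `true`) or its mirror image (sign `false`) -/
def LMOData.sgn (D : LMOData) (j : Bool × Fib) : D.M :=
  if j.1 then D.Sig j.2 else D.bar (D.Sig j.2)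

/-- the connected sum of `n j` copies of the summand `j`, for all `j` -/
noncomputable def LMOData.sum (D : LMOData) (n : Bool × Fib →₀ ℕ) : D.M :=
  n.prod fun j k => D.sgn j ^ k

theorem W_sum (D : LMOData) (n : Bool × Fib →₀ ℕ) : D.W (D.Z (D.sum n))
    = n.prod (fun j k => tau (fun t => D.W (D.Z (D.Sig t))) j ^ k) := by
  unfold LMOData.sum
  rw [Finsupp.prod, map_prod, map_prod, Finsupp.prod]
  refine Finset.prod_congr rfl fun j _ => ?_
  rw [map_pow, map_pow]
  congr 1
  rcases j with ⟨e, t⟩
  cases e
  · have : D.sgn (false, t) = D.bar (D.Sig t) := by simp [LMOData.sgn]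
    rw [this, D.W_bar]
    simp [tau, Q57.LM.sg]
  · have : D.sgn (true, t) = D.Sig t := by simp [LMOData.sgn]
    rw [this]
    simp [tau, Q57.LM.sg]

theorem result (D : LMOData) :
    -- (1) the Ohtsuki series separates all connected sums, also after adding any summand `N`
    (∀ (N : D.M) (n n' : Bool × Fib →₀ ℕ), D.W (D.Z N) ≠ 0 →
      D.W (D.Z (N * D.sum n)) = D.W (D.Z (N * D.sum n')) → n = n') ∧
    -- (2) and so does the LMO invariant
    (∀ n n' : Bool × Fib →₀ ℕ, D.Z (D.sum n) = D.Z (D.sum n') → n = n') ∧
    -- (3) finitely many coefficients suffice for the summands in a finite set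
    (∀ H : Finset (Bool × Fib), ∃ K : ℕ, ∀ n n' : Bool × Fib →₀ ℕ,
      n.support ⊆ H → n'.support ⊆ H →
      (∀ i < K, coeff i (D.W (D.Z (D.sum n))) = coeff i (D.W (D.Z (D.sum n')))) → n = n') := by
  have hτ := tau_indep (fun t => D.W (D.Z (D.Sig t))) D.c D.formula
  have hc : ∀ j, constantCoeff (tau (fun t => D.W (D.Z (D.Sig t))) j) = 1 := by
    intro j
    have h1 := tau_const j.2 (D.c j.2) _ (D.formula j.2)
    rw [← coeff_zero_eq_constantCoeff_apply, tau, coeff_rescale, pow_zero, one_mul,
      coeff_zero_eq_constantCoeff_apply]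
    exact h1
  refine ⟨fun N n n' hN h => ?_, fun n n' h => ?_, fun H => ?_⟩
  · rw [map_mul, map_mul, map_mul, map_mul] at h
    have h2 := mul_left_cancel₀ hN h
    rw [W_sum, W_sum] at h2
    exact hτ n n' h2
  · have h2 := congrArg D.W h
    rw [W_sum, W_sum] at h2
    exact hτ n n' h2
  · obtain ⟨K, hK⟩ := Q57.LM.trunc_sep _ hc hτ H
    refine ⟨K, fun n n' hn hn' h => hK n n' hn hn' fun i hi => ?_⟩
    rw [← W_sum, ← W_sum]
    exact h i hi

end Pool.Agent.Results.MP_27a3bb_gt.ConnectedSums
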