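import Pool.Agent.Q57.LU.Ex
import Pool.Agent.Q57.LU.Genus1
import Pool.Agent.Q57.LM.Trunc

/-!
# The LMO invariant and the connected sums of the `1/n`-surgeries on a knot

The coefficients of the Ohtsuki series of the homology sphere `S³_{-1/n}(K)` are polynomials in `n`
whose top coefficients are given by the Alexander polynomial `Δ` of `K` (surgery formula and
Melvin-Morton-Rozansky expansion). If the zeros of `Δ(e^x)` of smallest modulus are one pair of simple
zeros, we show that, up to finitely many values of `n`, the Ohtsuki series of these manifolds are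
multiplicatively independent. This is so for all knots with `Δ = a t + (1 - 2 a) + a t⁻¹`, `a ≠ 0`
(nontrivial Alexander polynomial of degree one, for instance the twist knots; `a = -1` is the figure
eight knot).
-/

set_option autoImplicit false

namespace Pool.Agent.Results.MP_27a3bb_gt.SurgeriesOnAKnot

open Q57.LU PowerSeries Filter

/-- Data of a knot: `M` are the integral homology spheres under connected sum, `Z` the LMO invariant,
`W` the reduction to the Ohtsuki series, `K n` the `-1/n`-surgery on the knot, `d` the coefficients of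
its Alexander polynomial `d 0 + ∑_{i ≥ 1} d i (t^i + t^(-i))`, `P k` the `k`-th coefficient of the
Ohtsuki series of `K n`, as a polynomial in `n`. -/
structure KnotData where
  M : Type
  A : Type
  [monM : CommMonoid M]
  [monA : CommMonoid A]
  Z : M →* A
  W : A →* PowerSeries ℂ
  K : ℤ → M
  d : ℕ →₀ ℤ
  P : ℕ → Polynomial ℂ
  d_sum : d 0 + 2 * ∑ i ∈ d.support.erase 0, d i = 1
  P_deg : ∀ k, (P k).natDegree ≤ k
  P_top : ∀ k, (P k).coeff k = coeff k (top (ff d))
  W_K : ∀ (n : ℤ) (k : ℕ), coeff k (W (Z (K n))) = (P k).eval (n : ℂ)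

attribute [instance] KnotData.monM KnotData.monA

/-- the connected sum of `n j` copies of `K j`, for all `j` outside `E` -/
noncomputable def KnotData.sum (D : KnotData) {E : Finset ℤ} (n : {m : ℤ // m ∉ E} →₀ ℕ) : D.M :=
  n.prod fun j k => D.K j ^ k

/-- The zeros of `Δ(e^x) = d 0 + 2 ∑_{i ≥ 1} d i cosh (i x)` of smallest modulus are one pair of
simple zeros. -/
def KnotData.OnePair (D : KnotData) : Prop :=
  ∃ x0 : ℂ, alex D.d x0 = 0 ∧ deriv (alex D.d) x0 ≠ 0 ∧
    ∀ x, alex D.d x = 0 → ‖x‖ ≤ ‖x0‖ → x = x0 ∨ x = -x0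

theorem W_eq (D : KnotData) (n : ℤ) : D.W (D.Z (D.K n)) = ser D.P n := by
  ext k
  rw [D.W_K, ser, coeff_mk]

theorem W_sum (D : KnotData) {E : Finset ℤ} (n : {m : ℤ // m ∉ E} →₀ ℕ) :
    D.W (D.Z (D.sum n)) = n.prod (fun j k => ser D.P j ^ k) := by
  unfold KnotData.sum
  rw [Finsupp.prod, map_prod, map_prod, Finsupp.prod]
  refine Finset.prod_congr rfl fun j _ => ?_
  rw [map_pow, map_pow, W_eq]

theorem P_zero (D : KnotData) : D.P 0 = 1 := by
  rw [Polynomial.eq_C_of_natDegree_le_zero (D.P_deg 0), D.P_top 0,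
    top_zero _ (ff_one D.d D.d_sum), Polynomial.C_1]

theorem result :
    -- (1) up to a finite set of values of `n`, the connected sums are separated
    (∀ D : KnotData, D.OnePair → ∃ E : Finset ℤ,
      (∀ (N : D.M) (n n' : {m : ℤ // m ∉ E} →₀ ℕ), D.W (D.Z N) ≠ 0 →
        D.W (D.Z (N * D.sum n)) = D.W (D.Z (N * D.sum n')) → n = n') ∧
      (∀ n n' : {m : ℤ // m ∉ E} →₀ ℕ, D.Z (D.sum n) = D.Z (D.sum n') → n = n') ∧
      (∀ H : Finset {m : ℤ // m ∉ E}, ∃ L : ℕ, ∀ n n' : {m : ℤ // m ∉ E} →₀ ℕ,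
        n.support ⊆ H → n'.support ⊆ H →
        (∀ i < L, coeff i (D.W (D.Z (D.sum n))) = coeff i (D.W (D.Z (D.sum n')))) → n = n')) ∧
    -- (2) this applies to the Alexander polynomials `a t + (1 - 2 a) + a t⁻¹`, `a ≠ 0`
    (∀ (D : KnotData) (a : ℤ), a ≠ 0 → (∀ i, D.d i = if i = 0 then 1 - 2 * a else
      if i = 1 then a else 0) → D.OnePair) := by
  refine ⟨fun D hpole => ?_, fun D a ha hd => genus_one a ha D.d hd⟩
  obtain ⟨x0, h1, h2, h3⟩ := hpole
  obtain ⟨ρ, c, hρ, hc, hlim⟩ := ff_lim_gen D.d D.d_sum x0 h1 h2 h3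
  obtain ⟨k0, hk0⟩ := dl_top_ne (ff D.d) (ff_one D.d D.d_sum) ρ c hρ hc hlim
  have hP0 := P_zero D
  obtain ⟨E, hE⟩ := family D.P hP0 D.P_deg k0 (fun k hk => by
    have e : (fun i => (D.P i).coeff i) = fun i => coeff i (top (ff D.d)) :=
      funext fun i => D.P_top i
    rw [e]
    exact hk0 k hk)
  refine ⟨E, fun N n n' hN h => ?_, fun n n' h => ?_, fun H => ?_⟩
  · rw [map_mul, map_mul, map_mul, map_mul] at h
    have h2 := mul_left_cancel₀ hN h
    rw [W_sum, W_sum] at h2
    exact hE n n' h2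
  · have h2 := congrArg D.W h
    rw [W_sum, W_sum] at h2
    exact hE n n' h2
  · have hcc : ∀ j : {m : ℤ // m ∉ E}, constantCoeff (ser D.P j) = 1 := fun j => by
      rw [← coeff_zero_eq_constantCoeff_apply, ser, coeff_mk, hP0, Polynomial.eval_one]
    obtain ⟨L, hL⟩ := Q57.LM.trunc_sep (fun j : {m : ℤ // m ∉ E} => ser D.P j) hcc hE H
    refine ⟨L, fun n n' hn hn' h => hL n n' hn hn' fun i hi => ?_⟩
    rw [← W_sum, ← W_sum]
    exact h i hi

end Pool.Agent.Results.MP_27a3bb_gt.SurgeriesOnAKnot
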